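import Mathlib

/-!
# The exterior algebra of a finite-dimensional vector space is finite-dimensional
-/

set_option autoImplicit false

namespace Pool.Agent.V8H1.VT

open Submodule

theorem finite_exteriorAlgebra (K V : Type*) [Field K] [AddCommGroup V] [Module K V]
    [FiniteDimensional K V] : Module.Finite K (ExteriorAlgebra K V) := by
  classical
  have htop : (⨆ i : ℕ, (⋀[K]^i V : Submodule K (ExteriorAlgebra K V))) = ⊤ :=
    (DirectSum.Decomposition.isInternal (fun i : ℕ => (⋀[K]^i V))).submodule_iSup_eq_top
  have hzero : ∀ i : ℕ, Module.finrank K V < i →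
      (⋀[K]^i V : Submodule K (ExteriorAlgebra K V)) = ⊥ := by
    intro i hi
    have h1 : Module.finrank K (⋀[K]^i V) = 0 := by
      rw [exteriorPower.finrank_eq]
      exact Nat.choose_eq_zero_of_lt hi
    exact Submodule.finrank_eq_zero.1 h1
  have hle : (⊤ : Submodule K (ExteriorAlgebra K V)) =
      ⨆ i ∈ Finset.range (Module.finrank K V + 1), (⋀[K]^i V) := by
    refine le_antisymm ?_ le_top
    rw [← htop]
    refine iSup_le fun i => ?_
    by_cases hi : Module.finrank K V < i
    · rw [hzero i hi]; exact bot_le
    · exact le_iSup₂_of_le i (by rw [Finset.mem_range]; omega) le_rfl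
  refine ⟨?_⟩
  rw [hle]
  refine Submodule.fg_biSup _ _ ?_
  intro i _
  rw [← Module.Finite.iff_fg]
  infer_instance

end Pool.Agent.V8H1.VT
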