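import Mathlib

/-!
# Generalised eigenvectors: spanning sets, invariant subspaces, products
-/

set_option autoImplicit false

open Submodule TensorProduct

namespace Pool.Agent.V8H1.VT

variable {Ω : Type*} [Field Ω]

section Gen
variable {E : Type*} [AddCommGroup E] [Module Ω E]

theorem pow_apply_mem_maxGen (G : E →ₗ[Ω] E) (a : Ω) (k : ℕ) (x : E)
    (h : ((G - a • LinearMap.id) ^ k : E →ₗ[Ω] E) x = 0) :
    x ∈ Module.End.maxGenEigenspace G a := by
  rw [Module.End.mem_maxGenEigenspace]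
  exact ⟨k, h⟩

theorem maxGen_iff (G : E →ₗ[Ω] E) (a : Ω) (x : E) :
    x ∈ Module.End.maxGenEigenspace G a ↔
      ∃ k : ℕ, ((G - a • LinearMap.id) ^ k : E →ₗ[Ω] E) x = 0 := by
  rw [Module.End.mem_maxGenEigenspace]
  exact Iff.rfl

/-- If the space is spanned by a set of generalised eigenvectors, then every generalised eigenvector
is a combination of those in the set with the same eigenvalue. -/
theorem mem_span_of_gen (G : E →ₗ[Ω] E) (P : Set E) (hP : span Ω P = ⊤)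
    (hG : ∀ x ∈ P, ∃ (μ : Ω) (k : ℕ), ((G - μ • LinearMap.id) ^ k : E →ₗ[Ω] E) x = 0)
    (lam : Ω) (k : ℕ) (v : E) (hv : ((G - lam • LinearMap.id) ^ k : E →ₗ[Ω] E) v = 0) :
    v ∈ span Ω {x | x ∈ P ∧ ∃ k : ℕ, ((G - lam • LinearMap.id) ^ k : E →ₗ[Ω] E) x = 0} := by
  set A : Submodule Ω E :=
    span Ω {x | x ∈ P ∧ ∃ k : ℕ, ((G - lam • LinearMap.id) ^ k : E →ₗ[Ω] E) x = 0} with hA
  set B : Submodule Ω E := ⨆ μ : {μ : Ω // μ ≠ lam}, Module.End.maxGenEigenspace G μ.1 with hB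
  have htop : A ⊔ B = ⊤ := by
    rw [eq_top_iff, ← hP, span_le]
    intro x hx
    obtain ⟨μ, j, hj⟩ := hG x hx
    by_cases hμ : μ = lam
    · subst hμ
      exact mem_sup_left (subset_span ⟨hx, j, hj⟩)
    · refine mem_sup_right ?_
      exact mem_iSup_of_mem (⟨μ, hμ⟩ : {μ : Ω // μ ≠ lam}) ((maxGen_iff G μ x).2 ⟨j, hj⟩)
  have hAle : A ≤ Module.End.maxGenEigenspace G lam := by
    rw [hA, span_le]
    rintro x ⟨_, hx⟩
    exact (maxGen_iff G lam x).2 hx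
  have hdis : Disjoint (Module.End.maxGenEigenspace G lam) B := by
    have h := Module.End.independent_maxGenEigenspace (R := Ω) (M := E) G
    have h2 := h lam
    rw [hB]
    refine h2.mono_right ?_
    refine iSup_le ?_
    rintro ⟨μ, hμ⟩
    exact le_iSup₂_of_le μ hμ le_rfl
  have hvt : v ∈ A ⊔ B := by rw [htop]; exact mem_top
  obtain ⟨a, ha, b, hb, hab⟩ := mem_sup.1 hvt
  have hb2 : b ∈ Module.End.maxGenEigenspace G lam := by
    have : b = v - a := by rw [← hab]; abel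
    rw [this]
    exact sub_mem ((maxGen_iff G lam v).2 ⟨k, hv⟩) (hAle ha)
  have hb0 : b = 0 := by
    have := (disjoint_def.1 hdis) b hb2 hb
    exact this
  rw [← hab, hb0, add_zero]
  exact ha

/-- An invariant subspace is spanned by generalised eigenvectors whose eigenvalues occur in it. -/
theorem le_span_gen [IsAlgClosed Ω] [FiniteDimensional Ω E] (G : E →ₗ[Ω] E)
    (N : Submodule Ω E) (hN : ∀ x ∈ N, G x ∈ N) :
    N ≤ span Ω {x | x ∈ N ∧ ∃ (a : Ω) (k : ℕ), ((G - a • LinearMap.id) ^ k : E →ₗ[Ω] E) x = 0 ∧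
      (x = 0 ∨ ∃ y ∈ N, y ≠ 0 ∧ G y = a • y)} := by
  set g : N →ₗ[Ω] N := G.restrict hN with hg
  have hpow : ∀ (a : Ω) (k : ℕ) (x : N),
      (((g - a • LinearMap.id) ^ k : N →ₗ[Ω] N) x : E) =
        ((G - a • LinearMap.id) ^ k : E →ₗ[Ω] E) (x : E) := by
    intro a k
    induction k with
    | zero => intro x; simp
    | succ k ih =>
      intro x
      rw [pow_succ, pow_succ]
      simp only [Module.End.mul_apply]
      rw [ih]
      rfl
  have htop := Module.End.iSup_maxGenEigenspace_eq_top g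
  intro x hx
  have hx2 : (⟨x, hx⟩ : N) ∈ ⨆ μ, Module.End.maxGenEigenspace g μ := by
    rw [htop]; exact mem_top
  have key : ∀ z : N, z ∈ ⨆ μ, Module.End.maxGenEigenspace g μ →
      (z : E) ∈ span Ω {x | x ∈ N ∧ ∃ (a : Ω) (k : ℕ),
        ((G - a • LinearMap.id) ^ k : E →ₗ[Ω] E) x = 0 ∧
          (x = 0 ∨ ∃ y ∈ N, y ≠ 0 ∧ G y = a • y)} := by
    intro z hz
    refine iSup_induction (p := fun μ => Module.End.maxGenEigenspace g μ)
      (motive := fun z : N => (z : E) ∈ span Ω {x | x ∈ N ∧ ∃ (a : Ω) (k : ℕ),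
        ((G - a • LinearMap.id) ^ k : E →ₗ[Ω] E) x = 0 ∧
          (x = 0 ∨ ∃ y ∈ N, y ≠ 0 ∧ G y = a • y)}) hz ?_ ?_ ?_
    · intro a y hy
      refine subset_span ⟨y.2, ?_⟩
      obtain ⟨k, hk⟩ := (maxGen_iff g a y).1 hy
      refine ⟨a, k, ?_, ?_⟩
      · rw [← hpow, hk]; rfl
      · by_cases hy0 : y = 0
        · left; rw [hy0]; rfl
        · right
          classical
          have hex : ∃ k : ℕ, ((g - a • LinearMap.id) ^ k : N →ₗ[Ω] N) y = 0 := ⟨k, hk⟩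
          set m := Nat.find hex with hm
          have hm1 : ((g - a • LinearMap.id) ^ m : N →ₗ[Ω] N) y = 0 := Nat.find_spec hex
          have hm0 : m ≠ 0 := by
            intro h0
            rw [h0] at hm1
            exact hy0 (by simpa using hm1)
          obtain ⟨j, hj⟩ := Nat.exists_eq_succ_of_ne_zero hm0
          have hlt : j < m := by omega
          have hne : ((g - a • LinearMap.id) ^ j : N →ₗ[Ω] N) y ≠ 0 := Nat.find_min hex hlt
          refine ⟨((g - a • LinearMap.id) ^ j : N →ₗ[Ω] N) y, Subtype.property _, ?_, ?_⟩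
          · intro h0
            exact hne (Subtype.ext h0)
          · rw [hj, Nat.succ_eq_add_one, pow_succ'] at hm1
            have h3 : g (((g - a • LinearMap.id) ^ j : N →ₗ[Ω] N) y) -
                a • (((g - a • LinearMap.id) ^ j : N →ₗ[Ω] N) y) = 0 := by
              simpa using hm1
            have h4 := congrArg (fun z : N => (z : E)) (sub_eq_zero.1 h3)
            exact h4
    · exact zero_mem _
    · intro y z hy hz
      exact add_mem hy hz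
  exact key _ hx2

/-- Powers of an endomorphism have the powers of the eigenvalues. -/
theorem pow_gen (G : E →ₗ[Ω] E) (a : Ω) (k : ℕ) (x : E)
    (hx : ((G - a • LinearMap.id) ^ k : E →ₗ[Ω] E) x = 0) (s : ℕ) :
    ((G ^ s - a ^ s • LinearMap.id) ^ k : E →ₗ[Ω] E) x = 0 := by
  have hcomm : Commute G (a • (1 : Module.End Ω E)) := by
    refine (Commute.one_right G).smul_right a
  have hdiv : ∃ Q : Module.End Ω E, (G ^ s - (a • (1 : Module.End Ω E)) ^ s : Module.End Ω E) =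
      Q * (G - a • (1 : Module.End Ω E)) ∧ Commute Q (G - a • (1 : Module.End Ω E)) := by
    refine ⟨∑ i ∈ Finset.range s, G ^ i * (a • (1 : Module.End Ω E)) ^ (s - 1 - i), ?_, ?_⟩
    · exact (hcomm.geom_sum₂_mul s).symm
    · refine Commute.sum_left _ _ _ ?_
      intro i _
      have h1 : Commute G (G - a • (1 : Module.End Ω E)) :=
        (Commute.refl G).sub_right hcomm
      have h2 : Commute (a • (1 : Module.End Ω E)) (G - a • (1 : Module.End Ω E)) :=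
        ((Commute.one_left _).smul_left a)
      exact (h1.pow_left i).mul_left (h2.pow_left _)
  obtain ⟨Q, hQ, hQc⟩ := hdiv
  have e1 : (G ^ s - a ^ s • LinearMap.id : E →ₗ[Ω] E) = Q * (G - a • (1 : Module.End Ω E)) := by
    rw [← hQ, smul_pow, one_pow]
    rfl
  rw [e1, hQc.mul_pow]
  rw [Module.End.mul_apply]
  have : ((G - a • (1 : Module.End Ω E)) ^ k : Module.End Ω E) x = 0 := hx
  rw [this, map_zero]

end Gen

section Bil
variable {E₁ E₂ E₃ : Type*} [AddCommGroup E₁] [Module Ω E₁] [AddCommGroup E₂] [Module Ω E₂]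
  [AddCommGroup E₃] [Module Ω E₃]

theorem bil_aux (H₁ : E₁ →ₗ[Ω] E₁) (H₂ : E₂ →ₗ[Ω] E₂) (f : E₁ →ₗ[Ω] E₂ →ₗ[Ω] E₃)
    (G₃ : E₃ →ₗ[Ω] E₃) (hf : ∀ x y, G₃ (f x y) = f (H₁ x) (H₂ y)) (α β : Ω) :
    ∀ (n k l : ℕ), k + l = n → ∀ (x : E₁) (y : E₂),
      ((H₁ - α • LinearMap.id) ^ k : E₁ →ₗ[Ω] E₁) x = 0 →
      ((H₂ - β • LinearMap.id) ^ l : E₂ →ₗ[Ω] E₂) y = 0 →
      ((G₃ - (α * β) • LinearMap.id) ^ n : E₃ →ₗ[Ω] E₃) (f x y) = 0 := by
  intro n
  induction n with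
  | zero =>
    intro k l hkl x y hx _
    have hk : k = 0 := by omega
    subst hk
    have hx0 : x = 0 := by simpa using hx
    rw [hx0]; simp
  | succ n ih =>
    intro k l hkl x y hx hy
    rcases Nat.eq_zero_or_pos k with hk | hk
    · subst hk
      have hx0 : x = 0 := by simpa using hx
      rw [hx0]; simp
    rcases Nat.eq_zero_or_pos l with hl | hl
    · subst hl
      have hy0 : y = 0 := by simpa using hy
      rw [hy0]; simp
    obtain ⟨k', rfl⟩ := Nat.exists_eq_succ_of_ne_zero hk.ne'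
    obtain ⟨l', rfl⟩ := Nat.exists_eq_succ_of_ne_zero hl.ne'
    rw [Nat.succ_eq_add_one, pow_succ, Module.End.mul_apply] at hx
    have hy' := hy
    rw [Nat.succ_eq_add_one, pow_succ, Module.End.mul_apply] at hy
    have e : (G₃ - (α * β) • LinearMap.id : E₃ →ₗ[Ω] E₃) (f x y) =
        f ((H₁ - α • LinearMap.id : E₁ →ₗ[Ω] E₁) x) (H₂ y) +
          α • f x ((H₂ - β • LinearMap.id : E₂ →ₗ[Ω] E₂) y) := by
      simp only [LinearMap.sub_apply, LinearMap.smul_apply, LinearMap.id_apply, map_sub, map_smul,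
        hf, smul_sub]
      rw [mul_smul]
      abel
    rw [pow_succ, Module.End.mul_apply, e, map_add, map_smul]
    have h1 : ((G₃ - (α * β) • LinearMap.id) ^ n : E₃ →ₗ[Ω] E₃)
        (f ((H₁ - α • LinearMap.id : E₁ →ₗ[Ω] E₁) x) (H₂ y)) = 0 := by
      refine ih k' (l' + 1) (by omega) _ _ hx ?_
      have hc : Commute ((H₂ - β • LinearMap.id) ^ (l' + 1) : Module.End Ω E₂) H₂ := by
        have : Commute (H₂ - β • (1 : Module.End Ω E₂) : Module.End Ω E₂) H₂ :=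
          (Commute.refl H₂).sub_left ((Commute.one_left H₂).smul_left β)
        exact this.pow_left _
      have h2 := congrArg (fun T : Module.End Ω E₂ => T y) hc.eq
      simp only [Module.End.mul_apply] at h2
      rw [h2]
      have h3 : ((H₂ - β • LinearMap.id) ^ (l' + 1) : E₂ →ₗ[Ω] E₂) y = 0 := hy'
      rw [h3, map_zero]
    have h2 : ((G₃ - (α * β) • LinearMap.id) ^ n : E₃ →ₗ[Ω] E₃)
        (f x ((H₂ - β • LinearMap.id : E₂ →ₗ[Ω] E₂) y)) = 0 := by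
      refine ih (k' + 1) l' (by omega) _ _ ?_ hy
      rw [pow_succ, Module.End.mul_apply]
      exact hx
    rw [h1, h2, smul_zero, add_zero]

/-- Products of generalised eigenvectors, for a bilinear map. -/
theorem bil_gen (G₁ : E₁ →ₗ[Ω] E₁) (G₂ : E₂ →ₗ[Ω] E₂) (f : E₁ →ₗ[Ω] E₂ →ₗ[Ω] E₃)
    (G₃ : E₃ →ₗ[Ω] E₃) (s t : ℕ)
    (hf : ∀ x y, G₃ (f x y) = f ((G₁ ^ s : E₁ →ₗ[Ω] E₁) x) ((G₂ ^ t : E₂ →ₗ[Ω] E₂) y))
    (a b : Ω) (k l : ℕ) (x : E₁) (y : E₂)
    (hx : ((G₁ - a • LinearMap.id) ^ k : E₁ →ₗ[Ω] E₁) x = 0)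
    (hy : ((G₂ - b • LinearMap.id) ^ l : E₂ →ₗ[Ω] E₂) y = 0) :
    ∃ n : ℕ, ((G₃ - (a ^ s * b ^ t) • LinearMap.id) ^ n : E₃ →ₗ[Ω] E₃) (f x y) = 0 :=
  ⟨k + l, bil_aux (G₁ ^ s) (G₂ ^ t) f G₃ hf (a ^ s) (b ^ t) (k + l) k l rfl x y
    (pow_gen G₁ a k x hx s) (pow_gen G₂ b l y hy t)⟩

/-- Products of generalised eigenvectors in the tensor product. -/
theorem tmul_gen (G₁ : E₁ →ₗ[Ω] E₁) (G₂ : E₂ →ₗ[Ω] E₂) (a b : Ω) (k l : ℕ) (x : E₁) (y : E₂)
    (hx : ((G₁ - a • LinearMap.id) ^ k : E₁ →ₗ[Ω] E₁) x = 0)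
    (hy : ((G₂ - b • LinearMap.id) ^ l : E₂ →ₗ[Ω] E₂) y = 0) (s t : ℕ) :
    ∃ n : ℕ, ((TensorProduct.map (G₁ ^ s) (G₂ ^ t) - (a ^ s * b ^ t) • LinearMap.id) ^ n :
      E₁ ⊗[Ω] E₂ →ₗ[Ω] E₁ ⊗[Ω] E₂) (x ⊗ₜ[Ω] y) = 0 :=
  bil_gen G₁ G₂ (TensorProduct.mk Ω E₁ E₂) (TensorProduct.map (G₁ ^ s) (G₂ ^ t)) s t
    (fun x y => by simp) a b k l x y hx hy

/-- Products of spanning sets span, for a bilinear map. -/
theorem bil_span (f : E₁ →ₗ[Ω] E₂ →ₗ[Ω] E₃) (P₁ : Set E₁) (P₂ : Set E₂)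
    (h₁ : span Ω P₁ = ⊤) (h₂ : span Ω P₂ = ⊤)
    (hf : span Ω {z | ∃ x y, f x y = z} = ⊤) :
    span Ω {z | ∃ x ∈ P₁, ∃ y ∈ P₂, f x y = z} = ⊤ := by
  rw [eq_top_iff, ← hf, span_le]
  rintro z ⟨x, y, rfl⟩
  have hx : x ∈ span Ω P₁ := by rw [h₁]; exact mem_top
  have hy : y ∈ span Ω P₂ := by rw [h₂]; exact mem_top
  show f x y ∈ span Ω {z | ∃ x ∈ P₁, ∃ y ∈ P₂, f x y = z}
  induction hx using span_induction with
  | mem x hx =>
    induction hy using span_induction with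
    | mem y hy => exact subset_span ⟨x, hx, y, hy, rfl⟩
    | zero => rw [map_zero]; exact zero_mem _
    | add y y' _ _ h h' => rw [map_add]; exact add_mem h h'
    | smul c y _ h => rw [map_smul]; exact smul_mem _ c h
  | zero => rw [map_zero, LinearMap.zero_apply]; exact zero_mem _
  | add x x' _ _ h h' => rw [map_add, LinearMap.add_apply]; exact add_mem h h'
  | smul c x _ h => rw [map_smul, LinearMap.smul_apply]; exact smul_mem _ c h

/-- Products of spanning sets span the tensor product. -/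
theorem tmul_span (P₁ : Set E₁) (P₂ : Set E₂) (h₁ : span Ω P₁ = ⊤) (h₂ : span Ω P₂ = ⊤) :
    span Ω {z : E₁ ⊗[Ω] E₂ | ∃ x ∈ P₁, ∃ y ∈ P₂, x ⊗ₜ[Ω] y = z} = ⊤ := by
  refine bil_span (TensorProduct.mk Ω E₁ E₂) P₁ P₂ h₁ h₂ ?_
  have := TensorProduct.span_tmul_eq_top Ω E₁ E₂
  rw [← this]
  rfl

end Bil

end Pool.Agent.V8H1.VT
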